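import Pool.Agent.H55.G.R_seed8.Helper605.CPb

namespace Pool.Agent.Helper605.CP

open Finset Filter Topology

/-- evolution of the constant in `p = 3^a ϖ + β` -/
noncomputable def nb (b p : ℕ) (β : ℝ) : ℝ := if (b + p) % 2 = 0 then β / 2 else (3 * β + 1) / 2

def Dec (t : St) (v β β' : ℝ) : Prop :=
  (t.1.2 : ℝ) = 3 ^ t.1.1 * v + β ∧ (t.2.2 : ℝ) = 3 ^ t.2.1 * v + β'

lemma dec1 (b : ℕ) (s : ℕ × ℕ) (v β : ℝ) (h : (s.2 : ℝ) = 3 ^ s.1 * v + β) :
    ((st1 b s).2 : ℝ) = 3 ^ (st1 b s).1 * ((v + b) / 2) + nb b s.2 β := by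
  obtain ⟨a, p⟩ := s
  simp only at h
  have hm := three_pow_mod a b p
  by_cases h1 : (b + p) % 2 = 0
  · rw [st1_even h1]
    simp only [nb, if_pos h1]
    obtain ⟨k, hk⟩ : ∃ k, 3 ^ a * b + p = 2 * k := ⟨(3 ^ a * b + p) / 2, by omega⟩
    rw [hk, Nat.mul_div_cancel_left k (by norm_num)]
    have hk' : (3 : ℝ) ^ a * b + p = 2 * k := by exact_mod_cast hk
    rw [h] at hk'
    linear_combination (-1 / 2) * hk'
  · rw [st1_odd h1]
    simp only [nb, if_neg h1]
    obtain ⟨k, hk⟩ : ∃ k, 3 * (3 ^ a * b + p) + 1 = 2 * k :=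
      ⟨(3 * (3 ^ a * b + p) + 1) / 2, by omega⟩
    rw [hk, Nat.mul_div_cancel_left k (by norm_num)]
    have hk' : (3 : ℝ) * (3 ^ a * b + p) + 1 = 2 * k := by exact_mod_cast hk
    rw [h] at hk'
    rw [pow_succ]
    linear_combination (-1 / 2) * hk'

lemma Dec.step {t : St} {v β β' : ℝ} (h : Dec t v β β') (b : ℕ) :
    Dec (stp b t) ((v + b) / 2) (nb b t.1.2 β) (nb b t.2.2 β') :=
  ⟨dec1 b t.1 v β h.1, dec1 b t.2 v β' h.2⟩

lemma sqrt_half (β : ℝ) : √|β / 2| ≤ 0.7072 * √|β| := by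
  rw [Real.sqrt_le_left (by positivity)]
  rw [mul_pow, Real.sq_sqrt (abs_nonneg _), abs_div, abs_two]
  have := abs_nonneg β
  nlinarith

lemma sqrt_threehalf (β : ℝ) : √|(3 * β + 1) / 2| ≤ 1.2248 * √|β| + 0.7072 := by
  rw [Real.sqrt_le_left (by positivity)]
  have h1 : |(3 * β + 1) / 2| ≤ 1.5 * |β| + 0.5 := by
    rw [abs_div, abs_two]
    have : |3 * β + 1| ≤ 3 * |β| + 1 := by
      calc |3 * β + 1| ≤ |3 * β| + |1| := abs_add_le _ _
        _ = 3 * |β| + 1 := by rw [abs_mul]; norm_num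
    linarith
  refine le_trans h1 ?_
  have h2 : √|β| ^ 2 = |β| := Real.sq_sqrt (abs_nonneg _)
  have h3 : 0 ≤ √|β| := Real.sqrt_nonneg _
  have h4 := abs_nonneg β
  nlinarith

lemma sqrt_nb_even {b p : ℕ} (h : (b + p) % 2 = 0) (β : ℝ) :
    √|nb b p β| ≤ 0.7072 * √|β| := by
  rw [nb, if_pos h]; exact sqrt_half β

lemma sqrt_nb_odd {b p : ℕ} (h : ¬ (b + p) % 2 = 0) (β : ℝ) :
    √|nb b p β| ≤ 1.2248 * √|β| + 0.7072 := by
  rw [nb, if_neg h]; exact sqrt_threehalf β

lemma sqrt_nb_sum (p : ℕ) (β : ℝ) :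
    √|nb 0 p β| + √|nb 1 p β| ≤ 1.932 * √|β| + 0.7072 := by
  by_cases h : p % 2 = 0
  · have h1 := sqrt_nb_even (b := 0) (p := p) (by omega) β
    have h2 := sqrt_nb_odd (b := 1) (p := p) (by omega) β
    linarith
  · have h1 := sqrt_nb_odd (b := 0) (p := p) (by omega) β
    have h2 := sqrt_nb_even (b := 1) (p := p) (by omega) β
    linarith

noncomputable def U (t : St) (β β' : ℝ) : ℝ :=
  √|β| * (9 / 10) ^ sd t + √|β'| * (9 / 10) ^ sd t + 2 * F t

lemma U_move_aux {k : ℕ} {S S' X X' Z Z' : ℝ}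
    (hS : 0 ≤ S) (hS' : 0 ≤ S')
    (h1 : X ≤ 1.2248 * S + 0.7072) (h2 : X' ≤ 0.7072 * S')
    (h3 : Z ≤ 0.7072 * S) (h4 : Z' ≤ 1.2248 * S' + 0.7072) :
    (X * (9 / 10) ^ (k + 2) + X' * (9 / 10) ^ (k + 2) +
      (Z * (9 / 10) ^ k + Z' * (9 / 10) ^ k)) / 2 ≤
      S * (9 / 10 : ℝ) ^ (k + 1) + S' * (9 / 10) ^ (k + 1) + 4 / 5 * (9 / 10) ^ (k + 1) := by
  have hY : (0 : ℝ) < (9 / 10) ^ k := by positivity
  set Y : ℝ := (9 / 10) ^ k
  have e2 : ((9 : ℝ) / 10) ^ (k + 2) = 81 / 100 * Y := by rw [pow_add]; ring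
  have e4 : ((9 : ℝ) / 10) ^ (k + 1) = 9 / 10 * Y := by rw [pow_add]; ring
  rw [e2, e4]
  have i1 : (X + X') * (81 / 100) + (Z + Z') ≤ 2 * (9 / 10 * (S + S' + 4 / 5)) := by
    linarith
  nlinarith [mul_le_mul_of_nonneg_right i1 hY.le]

lemma PU {t : St} (hs : sd t ≠ 0) (β β' : ℝ) :
    (U (stp 0 t) (nb 0 t.1.2 β) (nb 0 t.2.2 β') + U (stp 1 t) (nb 1 t.1.2 β) (nb 1 t.2.2 β')) / 2
      ≤ U t β β' := by
  have hPF := PF hs
  unfold PP at hPF
  have hS : 0 ≤ √|β| := Real.sqrt_nonneg _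
  have hS' : 0 ≤ √|β'| := Real.sqrt_nonneg _
  by_cases hpar : (t.1.2 + t.2.2) % 2 = 0
  · have h0 := sd_lazy hpar 0
    have h1 := sd_lazy hpar 1
    have hY : (0 : ℝ) < (9 / 10) ^ sd t := by positivity
    have k1 := sqrt_nb_sum t.1.2 β
    have k2 := sqrt_nb_sum t.2.2 β'
    unfold U
    rw [h0, h1]
    have k3 : (√|nb 0 t.1.2 β| + √|nb 1 t.1.2 β|) + (√|nb 0 t.2.2 β'| + √|nb 1 t.2.2 β'|) ≤
      2 * (√|β| + √|β'| + 4 / 5) := by linarith
    nlinarith [mul_le_mul_of_nonneg_right k3 hY.le]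
  · have hac : t.1.1 ≠ t.2.1 := by
      intro h; apply hs; unfold sd; omega
    -- for a parity choice
    have key : ∀ b0 b1 : ℕ, (b0 + t.1.2) % 2 = 0 → ¬ (b1 + t.1.2) % 2 = 0 →
        (U (stp b0 t) (nb b0 t.1.2 β) (nb b0 t.2.2 β') +
          U (stp b1 t) (nb b1 t.1.2 β) (nb b1 t.2.2 β')) / 2 -
          (F (stp b0 t) + F (stp b1 t)) ≤
        √|β| * (9 / 10) ^ sd t + √|β'| * (9 / 10) ^ sd t + 4 / 5 * (9 / 10) ^ sd t := by
      intro b0 b1 hb0 hb1
      have hq0 : ¬ (b0 + t.2.2) % 2 = 0 := by omega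
      have hq1 : (b1 + t.2.2) % 2 = 0 := by omega
      have s1 := sqrt_nb_odd hb1 β
      have s2 := sqrt_nb_even hq1 β'
      have s3 := sqrt_nb_even hb0 β
      have s4 := sqrt_nb_odd hq0 β'
      rcases lt_or_gt_of_ne hac with hlt | hgt
      · -- t.1.1 < t.2.1 : b0 increases sd
        have hd0 : sd (stp b0 t) = sd t + 1 := by
          simp only [sd, stp]
          rw [st1_even hb0, st1_odd hq0]
          simp only
          omega
        have hd1 : sd (stp b1 t) = sd t - 1 := by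
          simp only [sd, stp]
          rw [st1_odd hb1, st1_even hq1]
          simp only
          omega
        obtain ⟨k, hk⟩ := Nat.exists_eq_succ_of_ne_zero hs
        have e0 : sd (stp b0 t) = k + 2 := by omega
        have e1 : sd (stp b1 t) = k := by omega
        have e : sd t = k + 1 := by omega
        unfold U
        rw [e0, e1, e]
        have := U_move_aux (k := k) hS' hS s4 s3 s2 s1
        linarith
      · have hd0 : sd (stp b0 t) = sd t - 1 := by
          simp only [sd, stp]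
          rw [st1_even hb0, st1_odd hq0]
          simp only
          omega
        have hd1 : sd (stp b1 t) = sd t + 1 := by
          simp only [sd, stp]
          rw [st1_odd hb1, st1_even hq1]
          simp only
          omega
        obtain ⟨k, hk⟩ := Nat.exists_eq_succ_of_ne_zero hs
        have e0 : sd (stp b0 t) = k := by omega
        have e1 : sd (stp b1 t) = k + 2 := by omega
        have e : sd t = k + 1 := by omega
        unfold U
        rw [e0, e1, e]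
        have := U_move_aux (k := k) hS hS' s1 s2 s3 s4
        linarith
    have hU : U t β β' = √|β| * (9 / 10) ^ sd t + √|β'| * (9 / 10) ^ sd t + 2 * F t := rfl
    rw [hU]
    by_cases hp : t.1.2 % 2 = 0
    · have := key 0 1 (by omega) (by omega)
      linarith
    · have := key 1 0 (by omega) (by omega)
      linarith

open Classical in
/-- probability of not hitting the good set `sd = 0, |dl| ≤ D` within `n` steps -/
noncomputable def hb (D : ℕ) : ℕ → St → ℝ
  | 0, t => if sd t = 0 ∧ (dl t).natAbs ≤ D then 0 else 1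
  | n + 1, t => if sd t = 0 ∧ (dl t).natAbs ≤ D then 0 else PP (hb D n) t

lemma hb_nonneg (D n : ℕ) : ∀ t, 0 ≤ hb D n t := by
  induction n with
  | zero => intro t; simp only [hb]; split_ifs <;> norm_num
  | succ n ih =>
    intro t
    simp only [hb]
    split_ifs
    · norm_num
    · unfold PP
      have := ih (stp 0 t)
      have := ih (stp 1 t)
      linarith

lemma hb_le_one (D n : ℕ) : ∀ t, hb D n t ≤ 1 := by
  induction n with
  | zero => intro t; simp only [hb]; split_ifs <;> norm_num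
  | succ n ih =>
    intro t
    simp only [hb]
    split_ifs
    · norm_num
    · unfold PP
      have := ih (stp 0 t)
      have := ih (stp 1 t)
      linarith

lemma hb_succ_le_PP (D n : ℕ) (t : St) : hb D (n + 1) t ≤ PP (hb D n) t := by
  simp only [hb]
  split_ifs
  · unfold PP
    have := hb_nonneg D n (stp 0 t)
    have := hb_nonneg D n (stp 1 t)
    linarith
  · exact le_refl _

lemma hb_anti_succ (D n : ℕ) : ∀ t, hb D (n + 1) t ≤ hb D n t := by
  induction n with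
  | zero =>
    intro t
    by_cases h : sd t = 0 ∧ (dl t).natAbs ≤ D
    · simp only [hb, if_pos h]; exact le_refl _
    · have h1 : hb D 0 t = 1 := by simp only [hb, if_neg h]
      rw [h1]; exact hb_le_one D 1 t
  | succ n ih =>
    intro t
    by_cases h : sd t = 0 ∧ (dl t).natAbs ≤ D
    · have h1 : hb D (n + 1) t = 0 := by simp only [hb, if_pos h]
      have h2 : hb D (n + 1 + 1) t = 0 := by rw [hb, if_pos h]
      rw [h1, h2]
    · have h1 : hb D (n + 1) t = PP (hb D n) t := by rw [hb, if_neg h]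
      have h2 : hb D (n + 1 + 1) t = PP (hb D (n + 1)) t := by rw [hb, if_neg h]
      rw [h1, h2]
      exact PP_mono (fun b => ih (stp b t))

lemma hb_anti (D : ℕ) (t : St) : Antitone (fun n => hb D n t) :=
  antitone_nat_of_succ_le (fun n => hb_anti_succ D n t)

lemma U_nonneg (t : St) (β β' : ℝ) : 0 ≤ U t β β' := by
  unfold U
  have := F_nonneg t
  positivity

lemma hb_le {D : ℕ} (hD : 0 < D) (n : ℕ) : ∀ (t : St) (v β β' : ℝ), Dec t v β β' →
    hb D n t ≤ w n t + U t β β' / √D := by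
  have hD' : (0 : ℝ) < √D := Real.sqrt_pos.mpr (by exact_mod_cast hD)
  -- the case sd = 0
  have hzero : ∀ n (t : St) (v β β' : ℝ), Dec t v β β' → sd t = 0 →
      hb D n t ≤ w n t + U t β β' / √D := by
    intro n t v β β' hdec hs
    by_cases hg : (dl t).natAbs ≤ D
    · have h0 : hb D n t = 0 := by
        cases n with
        | zero => simp only [hb, if_pos (And.intro hs hg)]
        | succ n => rw [hb, if_pos (And.intro hs hg)]
      rw [h0]
      have := w_nonneg n t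
      have := U_nonneg t β β'
      positivity
    · have h1 := hb_le_one D n t
      have h2 := w_nonneg n t
      have h3 : 1 ≤ U t β β' / √D := by
        rw [le_div_iff₀ hD', one_mul]
        have hF : F t = 0 := by unfold F; rw [if_pos hs]
        unfold U
        rw [hs, hF]
        have hac : t.1.1 = t.2.1 := by unfold sd at hs; omega
        have hd : ((dl t : ℤ) : ℝ) = β - β' := by
          unfold dl
          push_cast
          rw [hdec.1, hdec.2, hac]
          ring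
        have hDle : (D : ℝ) ≤ |β - β'| := by
          rw [← hd, ← Int.cast_abs, Int.abs_eq_natAbs]
          exact_mod_cast (by omega : D ≤ (dl t).natAbs)
        have h4 : √(D : ℝ) ≤ √|β| + √|β'| := by
          rw [Real.sqrt_le_left (by positivity)]
          have h5 : √|β| ^ 2 = |β| := Real.sq_sqrt (abs_nonneg _)
          have h6 : √|β'| ^ 2 = |β'| := Real.sq_sqrt (abs_nonneg _)
          have h7 : |β - β'| ≤ |β| + |β'| := abs_sub _ _
          have h8 : 0 ≤ √|β| * √|β'| := by positivity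
          nlinarith
        simpa using h4
      linarith
  induction n with
  | zero =>
    intro t v β β' hdec
    by_cases hs : sd t = 0
    · exact hzero 0 t v β β' hdec hs
    · have h1 := hb_le_one D 0 t
      have h2 : w 0 t = 1 := by simp only [w, if_neg hs]
      have h3 := U_nonneg t β β'
      have h4 : 0 ≤ U t β β' / √D := by positivity
      linarith
  | succ n ih =>
    intro t v β β' hdec
    by_cases hs : sd t = 0
    · exact hzero (n + 1) t v β β' hdec hs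
    · have h0 := ih _ _ _ _ (hdec.step 0)
      have h1 := ih _ _ _ _ (hdec.step 1)
      have h2 := hb_succ_le_PP D n t
      have h3 : w (n + 1) t = PP (w n) t := by rw [w, if_neg hs]
      have h4 := PU hs β β'
      rw [h3]
      unfold PP at h2 ⊢
      have h5 : (U (stp 0 t) (nb 0 t.1.2 β) (nb 0 t.2.2 β') / √D +
        U (stp 1 t) (nb 1 t.1.2 β) (nb 1 t.2.2 β') / √D) / 2 ≤ U t β β' / √D := by
        rw [← add_div, div_right_comm]
        exact div_le_div_of_nonneg_right h4 hD'.le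
      linarith

noncomputable def Hinf (D : ℕ) (t : St) : ℝ := ⨅ n, hb D n t

lemma hb_bdd (D : ℕ) (t : St) : BddBelow (Set.range (fun n => hb D n t)) :=
  ⟨0, by rintro _ ⟨n, rfl⟩; exact hb_nonneg D n t⟩

lemma hb_tendsto (D : ℕ) (t : St) : Tendsto (fun n => hb D n t) atTop (𝓝 (Hinf D t)) :=
  tendsto_atTop_ciInf (hb_anti D t) (hb_bdd D t)

lemma Hinf_PP (D : ℕ) (t : St) : Hinf D t ≤ PP (Hinf D) t := by
  have h1 : Tendsto (fun n => hb D (n + 1) t) atTop (𝓝 (Hinf D t)) :=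
    (tendsto_add_atTop_iff_nat 1).mpr (hb_tendsto D t)
  have h2 : Tendsto (fun n => PP (hb D n) t) atTop (𝓝 (PP (Hinf D) t)) :=
    ((hb_tendsto D (stp 0 t)).add (hb_tendsto D (stp 1 t))).div_const 2
  exact le_of_tendsto_of_tendsto' h1 h2 (fun n => hb_succ_le_PP D n t)

lemma Hinf_le_one {D : ℕ} (hD : 0 < D) {t : St} {v β β' : ℝ} (hdec : Dec t v β β') :
    Hinf D t ≤ (√|β| + √|β'| + 34576) / √D := by
  have hD' : (0 : ℝ) < √D := Real.sqrt_pos.mpr (by exact_mod_cast hD)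
  refine le_of_forall_pos_le_add (fun ε hε => ?_)
  obtain ⟨N, hN⟩ := w_small t hε
  have h1 := hN N le_rfl
  have h2 := hb_le hD N t v β β' hdec
  have h3 : Hinf D t ≤ hb D N t := ciInf_le (hb_bdd D t) N
  have h4 : U t β β' / √D ≤ (√|β| + √|β'| + 34576) / √D := by
    refine div_le_div_of_nonneg_right ?_ hD'.le
    unfold U
    have h5 : (9 / 10 : ℝ) ^ sd t ≤ 1 := pow_le_one₀ (by norm_num) (by norm_num)
    have h6 := F_upper t
    have hS : 0 ≤ √|β| := Real.sqrt_nonneg _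
    have hS' : 0 ≤ √|β'| := Real.sqrt_nonneg _
    nlinarith
  linarith

lemma Hinf_iter {D : ℕ} (hD : 0 < D) (m : ℕ) : ∀ {t : St} {v β β' : ℝ}, Dec t v β β' →
    Hinf D t ≤ (0.966 ^ m * (√|β| + √|β'| - 20.8) + 34596.8) / √D := by
  have hD' : (0 : ℝ) < √D := Real.sqrt_pos.mpr (by exact_mod_cast hD)
  induction m with
  | zero =>
    intro t v β β' hdec
    refine le_trans (Hinf_le_one hD hdec) (div_le_div_of_nonneg_right ?_ hD'.le)
    norm_num
    linarith
  | succ m ih =>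
    intro t v β β' hdec
    have h0 := ih (hdec.step 0)
    have h1 := ih (hdec.step 1)
    refine le_trans (Hinf_PP D t) ?_
    unfold PP
    have k1 := sqrt_nb_sum t.1.2 β
    have k2 := sqrt_nb_sum t.2.2 β'
    have hpow : (0 : ℝ) < 0.966 ^ m := by positivity
    refine le_trans (by linarith : _ ≤
      ((0.966 ^ m * (√|nb 0 t.1.2 β| + √|nb 0 t.2.2 β'| - 20.8) + 34596.8) / √D +
        (0.966 ^ m * (√|nb 1 t.1.2 β| + √|nb 1 t.2.2 β'| - 20.8) + 34596.8) / √D) / 2) ?_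
    rw [← add_div, div_right_comm]
    refine div_le_div_of_nonneg_right ?_ hD'.le
    have k3 : (√|nb 0 t.1.2 β| + √|nb 1 t.1.2 β|) + (√|nb 0 t.2.2 β'| + √|nb 1 t.2.2 β'|)
      - 41.6 ≤ 2 * (0.966 * (√|β| + √|β'| - 20.8)) := by linarith
    have k4 := mul_le_mul_of_nonneg_left k3 hpow.le
    rw [pow_succ]
    linarith

lemma Hinf_half {D : ℕ} (hD : 70000 ≤ √(D : ℝ)) (t : St) : Hinf D t ≤ 1 / 2 := by
  have hD0 : 0 < D := by
    rcases Nat.eq_zero_or_pos D with h | h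
    · subst h; norm_num at hD
    · exact h
  have hD' : (0 : ℝ) < √D := by linarith
  have hdec : Dec t 0 t.1.2 t.2.2 := by constructor <;> ring
  have h1 : ∀ m : ℕ, Hinf D t ≤
      (0.966 ^ m * (√|(t.1.2 : ℝ)| + √|(t.2.2 : ℝ)| - 20.8) + 34596.8) / √D :=
    fun m => Hinf_iter hD0 m hdec
  have h2 : Tendsto (fun m : ℕ => ((0.966 : ℝ) ^ m * (√|(t.1.2 : ℝ)| + √|(t.2.2 : ℝ)| - 20.8) +
      34596.8) / √D) atTop (𝓝 ((0 * (√|(t.1.2 : ℝ)| + √|(t.2.2 : ℝ)| - 20.8) + 34596.8) / √D)) := by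
    refine Tendsto.div_const (Tendsto.add_const _ (Tendsto.mul_const _ ?_)) _
    exact tendsto_pow_atTop_nhds_zero_of_lt_one (by norm_num) (by norm_num)
  have h3 := ge_of_tendsto' h2 h1
  refine le_trans h3 ?_
  rw [zero_mul, zero_add, div_le_iff₀ hD']
  linarith

/-! ### From the good set -/

lemma u_coal (n : ℕ) : ∀ t : St, t.1 = t.2 → u n t = 0 := by
  induction n with
  | zero => intro t h; simp only [u, if_pos h]
  | succ n ih =>
    intro t h
    have h0 : (stp 0 t).1 = (stp 0 t).2 := by simp only [stp, h]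
    have h1 : (stp 1 t).1 = (stp 1 t).2 := by simp only [stp, h]
    rw [u, ih _ h0, ih _ h1]
    norm_num

lemma u_nonneg (n : ℕ) : ∀ t : St, 0 ≤ u n t := by
  induction n with
  | zero => intro t; simp only [u]; split_ifs <;> norm_num
  | succ n ih =>
    intro t
    rw [u]
    have := ih (stp 0 t)
    have := ih (stp 1 t)
    linarith

lemma u_le_one (n : ℕ) : ∀ t : St, u n t ≤ 1 := by
  induction n with
  | zero => intro t; simp only [u]; split_ifs <;> norm_num
  | succ n ih =>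
    intro t
    rw [u]
    have := ih (stp 0 t)
    have := ih (stp 1 t)
    linarith

lemma u_anti_succ (n : ℕ) : ∀ t : St, u (n + 1) t ≤ u n t := by
  induction n with
  | zero =>
    intro t
    by_cases h : t.1 = t.2
    · rw [u_coal 1 t h, u_coal 0 t h]
    · have : u 0 t = 1 := by simp only [u, if_neg h]
      rw [this]; exact u_le_one 1 t
  | succ n ih =>
    intro t
    rw [u_succ, u_succ]
    exact PP_mono (fun b => ih (stp b t))

lemma u_anti (t : St) : Antitone (fun n => u n t) :=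
  antitone_nat_of_succ_le (fun n => u_anti_succ n t)

lemma u_swap (n : ℕ) : ∀ t : St, u n t = u n (t.2, t.1) := by
  induction n with
  | zero => intro t; simp only [u]; exact if_congr eq_comm rfl rfl
  | succ n ih =>
    intro t
    rw [u, u, ih (stp 0 t), ih (stp 1 t)]
    rfl

lemma half_step {b : ℕ} (hb : b < 2) (n : ℕ) (t : St) :
    (1 - u n (stp b t)) / 2 ≤ 1 - u (n + 1) t := by
  rw [u]
  have h0 := u_le_one n (stp 0 t)
  have h1 := u_le_one n (stp 1 t)
  interval_cases b <;> linarith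

lemma exists_bit_even (p : ℕ) : ∃ b, b < 2 ∧ (b + p) % 2 = 0 := by
  rcases Nat.mod_two_eq_zero_or_one p with h | h
  · exact ⟨0, by omega, by omega⟩
  · exact ⟨1, by omega, by omega⟩

lemma exists_bit_odd (p : ℕ) : ∃ b, b < 2 ∧ ¬ (b + p) % 2 = 0 := by
  rcases Nat.mod_two_eq_zero_or_one p with h | h
  · exact ⟨1, by omega, by omega⟩
  · exact ⟨0, by omega, by omega⟩

def Q (k : ℕ) : Prop := ∀ a p q : ℕ, ((p : ℤ) - q).natAbs = k →
  (1 / 4 : ℝ) ^ (k + 2) ≤ 1 - u (2 * k + 3) ((a, p), (a, q))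

lemma Q_swap {k a p q : ℕ} (h : (1 / 4 : ℝ) ^ (k + 2) ≤ 1 - u (2 * k + 3) ((a, q), (a, p))) :
    (1 / 4 : ℝ) ^ (k + 2) ≤ 1 - u (2 * k + 3) ((a, p), (a, q)) := by
  rw [u_swap]; exact h

lemma Q_reduce {j k : ℕ} (hjk : j < k) {t : St} {n : ℕ} (hn : 2 * k + 1 ≤ n)
    (h : (1 / 4 : ℝ) ^ (j + 2) ≤ 1 - u (2 * j + 3) t) :
    (1 / 4 : ℝ) ^ (k + 1) ≤ 1 - u n t := by
  have h1 : u n t ≤ u (2 * j + 3) t := u_anti t (by omega)
  have h2 : (1 / 4 : ℝ) ^ (k + 1) ≤ (1 / 4) ^ (j + 2) :=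
    pow_le_pow_of_le_one (by norm_num) (by norm_num) (by omega)
  linarith

lemma Q_even {k : ℕ} (ih : ∀ j < k, Q j) {a p q : ℕ} (hk : ((p : ℤ) - q).natAbs = k)
    (hk0 : k ≠ 0) (he : k % 2 = 0) :
    (1 / 4 : ℝ) ^ (k + 2) ≤ 1 - u (2 * k + 3) ((a, p), (a, q)) := by
  obtain ⟨b, hb, hbp⟩ := exists_bit_even p
  have hbq : (b + q) % 2 = 0 := by omega
  have hst : stp b ((a, p), (a, q)) =
      ((a, (3 ^ a * b + p) / 2), (a, (3 ^ a * b + q) / 2)) := by
    simp only [stp]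
    rw [st1_even (s := (a, p)) hbp, st1_even (s := (a, q)) hbq]
  have h1 := half_step hb (2 * k + 2) ((a, p), (a, q))
  rw [hst] at h1
  have m1 := three_pow_mod a b p
  have m2 := three_pow_mod a b q
  generalize 3 ^ a * b = g at *
  have hj : (((g + p) / 2 : ℕ) - ((g + q) / 2 : ℕ) : ℤ).natAbs = k / 2 := by
    push_cast; omega
  have h2 := ih (k / 2) (by omega) a _ _ hj
  have h3 := Q_reduce (k := k) (n := 2 * k + 2) (by omega) (by omega) h2
  have h4 : (1 / 4 : ℝ) ^ (k + 2) ≤ (1 / 4) ^ (k + 1) / 2 := by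
    rw [pow_succ (1 / 4 : ℝ) (k + 1)]
    have : (0 : ℝ) < (1 / 4) ^ (k + 1) := by positivity
    linarith
  linarith

lemma Q_one_mod {k : ℕ} (ih : ∀ j < k, Q j) {a p q : ℕ} (hk : ((p : ℤ) - q).natAbs = k)
    (hk0 : k ≠ 1) (hd : ((q : ℤ) - p) % 4 = 1) :
    (1 / 4 : ℝ) ^ (k + 2) ≤ 1 - u (2 * k + 3) ((a, p), (a, q)) := by
  obtain ⟨b, hb, hbp⟩ := exists_bit_odd p
  have hbq : (b + q) % 2 = 0 := by omega
  have hst : stp b ((a, p), (a, q)) =
      ((a + 1, (3 * (3 ^ a * b + p) + 1) / 2), (a, (3 ^ a * b + q) / 2)) := by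
    simp only [stp]
    rw [st1_odd (s := (a, p)) hbp, st1_even (s := (a, q)) hbq]
  have h1 := half_step hb (2 * k + 2) ((a, p), (a, q))
  rw [hst] at h1
  have m1 := three_pow_mod a b p
  have m2 := three_pow_mod a b q
  generalize 3 ^ a * b = g at *
  obtain ⟨x1, hx1⟩ : ∃ x1, x1 = (3 * (g + p) + 1) / 2 := ⟨_, rfl⟩
  obtain ⟨y1, hy1⟩ : ∃ y1, y1 = (g + q) / 2 := ⟨_, rfl⟩
  rw [← hx1, ← hy1] at h1
  obtain ⟨b2, hb2, hbx⟩ := exists_bit_even x1
  have hby : ¬ (b2 + y1) % 2 = 0 := by omega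
  have hst2 : stp b2 ((a + 1, x1), (a, y1)) =
      ((a + 1, (3 ^ (a + 1) * b2 + x1) / 2), (a + 1, (3 * (3 ^ a * b2 + y1) + 1) / 2)) := by
    simp only [stp]
    rw [st1_even (s := (a + 1, x1)) hbx, st1_odd (s := (a, y1)) hby]
  have h2 := half_step hb2 (2 * k + 1) ((a + 1, x1), (a, y1))
  have m3 := three_pow_mod a b2 y1
  have e3 : 3 ^ (a + 1) * b2 = 3 * (3 ^ a * b2) := by rw [pow_succ]; ring
  rw [hst2, e3] at h2
  generalize 3 ^ a * b2 = g2 at *
  obtain ⟨j, hj⟩ : ∃ j, (((3 * g2 + x1) / 2 : ℕ) - ((3 * (g2 + y1) + 1) / 2 : ℕ) : ℤ).natAbs = j :=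
    ⟨_, rfl⟩
  have hjk : j < k := by push_cast at hj; omega
  have h3 := ih j hjk (a + 1) _ _ hj
  have h4 := Q_reduce (k := k) (n := 2 * k + 1) hjk (by omega) h3
  have h5 : (1 / 4 : ℝ) ^ (k + 2) = (1 / 4) ^ (k + 1) / 4 := by
    rw [pow_succ (1 / 4 : ℝ) (k + 1)]; ring
  linarith

lemma Q_base {a p q : ℕ} (hd : (q : ℤ) - p = 1) :
    (1 / 4 : ℝ) ^ (1 + 2) ≤ 1 - u (2 * 1 + 3) ((a, p), (a, q)) := by
  obtain ⟨b, hb, hbp⟩ := exists_bit_even p
  have hbq : ¬ (b + q) % 2 = 0 := by omega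
  have hst : stp b ((a, p), (a, q)) =
      ((a, (3 ^ a * b + p) / 2), (a + 1, (3 * (3 ^ a * b + q) + 1) / 2)) := by
    simp only [stp]
    rw [st1_even (s := (a, p)) hbp, st1_odd (s := (a, q)) hbq]
  have h1 := half_step hb 4 ((a, p), (a, q))
  rw [hst] at h1
  have m1 := three_pow_mod a b p
  generalize 3 ^ a * b = g at *
  obtain ⟨x1, hx1⟩ : ∃ x1, x1 = (g + p) / 2 := ⟨_, rfl⟩
  obtain ⟨y1, hy1⟩ : ∃ y1, y1 = (3 * (g + q) + 1) / 2 := ⟨_, rfl⟩
  rw [← hx1, ← hy1] at h1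
  have hxy : y1 = 3 * x1 + 2 := by omega
  obtain ⟨b2, hb2, hbx⟩ := exists_bit_even x1
  have hby : (b2 + y1) % 2 = 0 := by omega
  have hst2 : stp b2 ((a, x1), (a + 1, y1)) =
      ((a, (3 ^ a * b2 + x1) / 2), (a + 1, (3 ^ (a + 1) * b2 + y1) / 2)) := by
    simp only [stp]
    rw [st1_even (s := (a, x1)) hbx, st1_even (s := (a + 1, y1)) hby]
  have h2 := half_step hb2 3 ((a, x1), (a + 1, y1))
  have m3 := three_pow_mod a b2 x1
  have e3 : 3 ^ (a + 1) * b2 = 3 * (3 ^ a * b2) := by rw [pow_succ]; ring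
  rw [hst2, e3] at h2
  generalize 3 ^ a * b2 = g2 at *
  obtain ⟨x2, hx2⟩ : ∃ x2, x2 = (g2 + x1) / 2 := ⟨_, rfl⟩
  obtain ⟨y2, hy2⟩ : ∃ y2, y2 = (3 * g2 + y1) / 2 := ⟨_, rfl⟩
  rw [← hx2, ← hy2] at h2
  have hxy2 : y2 = 3 * x2 + 1 := by omega
  obtain ⟨b3, hb3, hbx3⟩ := exists_bit_odd x2
  have hby3 : (b3 + y2) % 2 = 0 := by omega
  have h3 := half_step hb3 2 ((a, x2), (a + 1, y2))
  have hc : u 2 (stp b3 ((a, x2), (a + 1, y2))) = 0 := by
    apply u_coal
    simp only [stp]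
    rw [st1_odd (s := (a, x2)) hbx3, st1_even (s := (a + 1, y2)) hby3]
    have e4 : 3 ^ (a + 1) * b3 = 3 * (3 ^ a * b3) := by rw [pow_succ]; ring
    simp only [e4, Prod.mk.injEq, true_and]
    rw [hxy2]
    congr 1
    ring
  rw [hc] at h3
  norm_num at h1 h2 h3 ⊢
  linarith

lemma Q_all (k : ℕ) : Q k := by
  induction k using Nat.strong_induction_on with
  | _ k ih =>
    intro a p q hk
    by_cases hk0 : k = 0
    · subst hk0
      have hpq : p = q := by omega
      rw [u_coal _ _ (by rw [hpq])]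
      norm_num
    · rcases Nat.mod_two_eq_zero_or_one k with he | ho
      · exact Q_even ih hk hk0 he
      · by_cases hk1 : k = 1
        · subst hk1
          rcases (by omega : (q : ℤ) - p = 1 ∨ (p : ℤ) - q = 1) with h | h
          · exact Q_base h
          · exact Q_swap (Q_base h)
        · rcases (by omega : ((q : ℤ) - p) % 4 = 1 ∨ ((p : ℤ) - q) % 4 = 1) with h | h
          · exact Q_one_mod ih hk hk1 h
          · exact Q_swap (Q_one_mod ih (by omega) hk1 h)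

lemma good_bound {D : ℕ} {t : St} (h : sd t = 0 ∧ (dl t).natAbs ≤ D) :
    (1 / 4 : ℝ) ^ (D + 2) ≤ 1 - u (2 * D + 3) t := by
  obtain ⟨⟨a, p⟩, ⟨c, q⟩⟩ := t
  obtain ⟨h1, h2⟩ := h
  simp only [sd] at h1
  simp only [dl] at h2
  have hac : a = c := by omega
  subst hac
  have h3 := Q_all _ a p q rfl
  have h4 : u (2 * D + 3) ((a, p), (a, q)) ≤
      u (2 * ((p : ℤ) - q).natAbs + 3) ((a, p), (a, q)) := u_anti _ (by omega)
  have h5 : (1 / 4 : ℝ) ^ (D + 2) ≤ (1 / 4) ^ (((p : ℤ) - q).natAbs + 2) :=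
    pow_le_pow_of_le_one (by norm_num) (by norm_num) (by omega)
  linarith

lemma main_ineq (D n : ℕ) : ∀ t : St,
    (1 / 4 : ℝ) ^ (D + 2) * (1 - hb D n t) ≤ 1 - u (n + (2 * D + 3)) t := by
  have hpos : (0 : ℝ) < (1 / 4) ^ (D + 2) := by positivity
  induction n with
  | zero =>
    intro t
    by_cases h : sd t = 0 ∧ (dl t).natAbs ≤ D
    · have h1 : hb D 0 t = 0 := by simp only [hb, if_pos h]
      rw [h1, zero_add, sub_zero, mul_one]
      exact good_bound h
    · have h1 : hb D 0 t = 1 := by simp only [hb, if_neg h]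
      rw [h1, sub_self, mul_zero]
      have := u_le_one (0 + (2 * D + 3)) t
      linarith
  | succ n ih =>
    intro t
    by_cases h : sd t = 0 ∧ (dl t).natAbs ≤ D
    · have h1 : hb D (n + 1) t = 0 := by simp only [hb, if_pos h]
      rw [h1, sub_zero, mul_one]
      have h2 := good_bound h
      have h3 : u (n + 1 + (2 * D + 3)) t ≤ u (2 * D + 3) t := u_anti t (by omega)
      linarith
    · have h1 : hb D (n + 1) t = PP (hb D n) t := by simp only [hb, if_neg h]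
      rw [h1, show n + 1 + (2 * D + 3) = (n + (2 * D + 3)) + 1 by ring, u_succ]
      have i0 := ih (stp 0 t)
      have i1 := ih (stp 1 t)
      unfold PP
      linarith

noncomputable def uinf (t : St) : ℝ := ⨅ n, u n t

lemma u_bdd (t : St) : BddBelow (Set.range (fun n => u n t)) :=
  ⟨0, by rintro _ ⟨n, rfl⟩; exact u_nonneg n t⟩

lemma u_tendsto (t : St) : Tendsto (fun n => u n t) atTop (𝓝 (uinf t)) :=
  tendsto_atTop_ciInf (u_anti t) (u_bdd t)

lemma uinf_PP (t : St) : uinf t = PP uinf t := by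
  have h1 : Tendsto (fun n => u (n + 1) t) atTop (𝓝 (uinf t)) :=
    (tendsto_add_atTop_iff_nat 1).mpr (u_tendsto t)
  have h2 : Tendsto (fun n => PP (u n) t) atTop (𝓝 (PP uinf t)) :=
    ((u_tendsto (stp 0 t)).add (u_tendsto (stp 1 t))).div_const 2
  exact tendsto_nhds_unique h1 h2

lemma uinf_lt : ∃ θ : ℝ, θ < 1 ∧ 0 ≤ θ ∧ ∀ t, uinf t ≤ θ := by
  obtain ⟨D, hD⟩ : ∃ D : ℕ, 70000 ≤ √(D : ℝ) := by
    refine ⟨70000 ^ 2, Real.le_sqrt_of_sq_le ?_⟩
    norm_num
  have hpos : (0 : ℝ) < (1 / 4) ^ (D + 2) := by positivity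
  have hle : ((1 : ℝ) / 4) ^ (D + 2) ≤ 1 := pow_le_one₀ (by norm_num) (by norm_num)
  refine ⟨1 - (1 / 4 : ℝ) ^ (D + 2) / 2, by linarith, by linarith, fun t => ?_⟩
  have h1 : ∀ n, uinf t ≤ 1 - (1 / 4 : ℝ) ^ (D + 2) * (1 - hb D n t) := by
    intro n
    have h2 : uinf t ≤ u (n + (2 * D + 3)) t := ciInf_le (u_bdd t) _
    have h3 := main_ineq D n t
    linarith
  have h2 : Tendsto (fun n => 1 - (1 / 4 : ℝ) ^ (D + 2) * (1 - hb D n t)) atTop
      (𝓝 (1 - (1 / 4 : ℝ) ^ (D + 2) * (1 - Hinf D t))) :=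
    Tendsto.const_sub _ (Tendsto.const_mul _ (Tendsto.const_sub _ (hb_tendsto D t)))
  have h3 := ge_of_tendsto' h2 h1
  have h4 := Hinf_half hD t
  nlinarith

theorem uinf_zero (t : St) : uinf t = 0 := by
  obtain ⟨θ, hθ1, hθ0, hθ⟩ := uinf_lt
  have h1 : ∀ m t, uinf t ≤ θ * u m t := by
    intro m
    induction m with
    | zero =>
      intro t
      by_cases h : t.1 = t.2
      · have h2 : uinf t ≤ u 0 t := ciInf_le (u_bdd t) 0
        rw [u_coal 0 t h] at h2 ⊢
        linarith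
      · have : u 0 t = 1 := by simp only [u, if_neg h]
        rw [this, mul_one]; exact hθ t
    | succ m ih =>
      intro t
      rw [uinf_PP, u_succ]
      unfold PP
      have := ih (stp 0 t)
      have := ih (stp 1 t)
      linarith
  have h2 : uinf t ≤ θ * uinf t :=
    ge_of_tendsto' ((u_tendsto t).const_mul θ) (fun m => h1 m t)
  have h3 : 0 ≤ uinf t := le_ciInf (fun n => u_nonneg n t)
  nlinarith

theorem u_small (t : St) : ∀ ε > 0, ∃ m, 1 ≤ m ∧ u m t < ε := by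
  intro ε hε
  have h := u_tendsto t
  rw [uinf_zero] at h
  have h2 := (h.eventually (gt_mem_nhds hε)).and (eventually_ge_atTop 1)
  obtain ⟨m, hm1, hm2⟩ := h2.exists
  exact ⟨m, hm2, hm1⟩

theorem density_one (A : Set ℕ)
    (hA : ∀ m, 1 ≤ m → ∃ L, ∀ n, L ≤ n → orb m n = orb m (n + 1) → n ∈ A) :
    Tendsto (fun N : ℕ => ((A ∩ Set.Icc 1 N).ncard : ℝ) / N) atTop (𝓝 1) :=
  density_of_uinf (u_small _) A hA

end Pool.Agent.Helper605.CP
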